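import Pool.Agent.Helper3.DL.Defs

/-!
# DL-19b: from the weighted mean value to the box
-/

set_option autoImplicit false

namespace Pool.Agent.DL

open MeasureTheory Finset

theorem star_sc_lower {u : ℝ} (h : |u| ≤ 1 / 2) : 1 / 2 ≤ sc u := by
  have key : ∀ v : ℝ, 0 < v → v ≤ 1 / 2 → 1 / 2 ≤ sc v := by
    intro v hv hv2
    have hpi : 0 < Real.pi := Real.pi_pos
    have hpv : 0 < Real.pi * v := mul_pos hpi hv
    have h1 : 2 / Real.pi * (Real.pi * v) ≤ Real.sin (Real.pi * v) :=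
      Real.mul_le_sin hpv.le (by nlinarith)
    have h2 : sc v = Real.sin (Real.pi * v) / (Real.pi * v) := by
      unfold sc
      rw [Real.sinc_of_ne_zero hpv.ne']
    rw [h2, le_div_iff₀ hpv]
    have h3 : 2 / Real.pi * (Real.pi * v) = 2 * v := by field_simp
    rw [h3] at h1
    have h4 : Real.pi ≤ 4 := Real.pi_le_four
    nlinarith
  rcases lt_trichotomy u 0 with h0 | h0 | h0
  · have h1 : sc u = sc (-u) := by
      unfold sc
      rw [mul_neg, Real.sinc_neg]
    rw [h1]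
    apply key _ (by linarith)
    rw [abs_of_neg h0] at h
    exact h
  · rw [h0]
    unfold sc
    norm_num
  · apply key _ h0
    rw [abs_of_pos h0] at h
    exact h

theorem star_ee_norm (t : ℝ) : ‖ee t‖ = 1 := by
  unfold ee
  have : 2 * (Real.pi : ℂ) * t * Complex.I = ((2 * Real.pi * t : ℝ) : ℂ) * Complex.I := by
    push_cast; ring
  rw [this, Complex.norm_exp_ofReal_mul_I]

theorem star_ee_add (s t : ℝ) : ee (s + t) = ee s * ee t := by
  unfold ee
  rw [← Complex.exp_add]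
  congr 1
  push_cast; ring

/-- translation of an exponential sum -/
theorem star_SS_add {m : ℕ} (e : Fin m → ℕ) (S : Finset ℕ) (a : ℕ → ℂ) (x c : Fin m → ℝ) :
    SS e S a (x + c) = SS e S (fun n => a n * ee (∑ i, c i * (n : ℝ) ^ e i)) x := by
  unfold SS
  refine Finset.sum_congr rfl fun n _ => ?_
  have h1 : ∑ i, (x + c) i * (n : ℝ) ^ e i =
      ∑ i, c i * (n : ℝ) ^ e i + ∑ i, x i * (n : ℝ) ^ e i := by
    rw [← Finset.sum_add_distrib]
    refine Finset.sum_congr rfl fun i _ => ?_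
    simp only [Pi.add_apply]
    ring
  rw [h1, star_ee_add, mul_assoc]

/-- the integral over a small box is bounded by the weighted mean value -/
theorem star_box_le {m : ℕ} (s : ℕ) (e : Fin m → ℕ) (S : Finset ℕ) (a : ℕ → ℂ) {L : ℝ}
    (hL : 0 < L) :
    ∃ a' : ℕ → ℂ, (∀ j, ‖a' j‖ = ‖a j‖) ∧
      ∫⁻ x in Set.Icc (0 : Fin m → ℝ) (fun _ => L⁻¹), ‖SS e S a x‖ₑ ^ (2 * s) ≤
        (2 : ENNReal) ^ (m * (2 * s)) * QQ s e (fun _ => L) S a' := by
  set c : Fin m → ℝ := fun _ => L⁻¹ / 2 with hc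
  refine ⟨fun n => a n * ee (∑ i, c i * (n : ℝ) ^ e i), ?_, ?_⟩
  · intro j
    rw [norm_mul, star_ee_norm, mul_one]
  set a' : ℕ → ℂ := fun n => a n * ee (∑ i, c i * (n : ℝ) ^ e i) with ha'
  have h1 : ∫⁻ x in Set.Icc (0 : Fin m → ℝ) (fun _ => L⁻¹), ‖SS e S a x‖ₑ ^ (2 * s) =
      ∫⁻ y in (fun y => y + c) ⁻¹' Set.Icc (0 : Fin m → ℝ) (fun _ => L⁻¹),
        ‖SS e S a (y + c)‖ₑ ^ (2 * s) := by
    have hmp : MeasurePreserving (fun y : Fin m → ℝ => y + c) volume volume :=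
      measurePreserving_add_right volume c
    exact (hmp.setLIntegral_comp_preimage_emb (measurableEmbedding_addRight c)
      (fun x => ‖SS e S a x‖ₑ ^ (2 * s)) _).symm
  rw [h1]
  have hmeas : MeasurableSet ((fun y : Fin m → ℝ => y + c) ⁻¹'
      Set.Icc (0 : Fin m → ℝ) (fun _ => L⁻¹)) :=
    measurableSet_Icc.preimage (measurable_id.add_const c)
  calc ∫⁻ y in (fun y => y + c) ⁻¹' Set.Icc (0 : Fin m → ℝ) (fun _ => L⁻¹),
        ‖SS e S a (y + c)‖ₑ ^ (2 * s)
      ≤ ∫⁻ y in (fun y => y + c) ⁻¹' Set.Icc (0 : Fin m → ℝ) (fun _ => L⁻¹),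
        (2 : ENNReal) ^ (m * (2 * s)) *
          ‖SS e S a' y * (Psi (fun _ => L) y : ℂ)‖ₑ ^ (2 * s) := by
        refine setLIntegral_mono' hmeas fun y hy => ?_
        have hPsi : (1 / 2 : ℝ) ^ m ≤ Psi (fun _ => L) y := by
          unfold Psi
          calc (1 / 2 : ℝ) ^ m = ∏ _i : Fin m, (1 / 2 : ℝ) := by simp
            _ ≤ ∏ i, sc (L * y i) := by
              refine Finset.prod_le_prod (fun i _ => by norm_num) fun i _ => ?_
              apply star_sc_lower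
              have hy1 : 0 ≤ y i + L⁻¹ / 2 := hy.1 i
              have hy2 : y i + L⁻¹ / 2 ≤ L⁻¹ := hy.2 i
              have hLL : L * L⁻¹ = 1 := mul_inv_cancel₀ hL.ne'
              rw [abs_le]
              constructor
              · have := mul_le_mul_of_nonneg_left hy1 hL.le
                nlinarith
              · have := mul_le_mul_of_nonneg_left hy2 hL.le
                nlinarith
        have hone : (1 : ENNReal) ≤ (2 : ENNReal) ^ m * ‖(Psi (fun _ => L) y : ℂ)‖ₑ := by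
          have h2 : ‖(Psi (fun _ => L) y : ℂ)‖ₑ = ENNReal.ofReal (Psi (fun _ => L) y) := by
            rw [← ofReal_norm, Complex.norm_real, Real.norm_of_nonneg]
            exact le_trans (by positivity) hPsi
          rw [h2]
          have h3 : (2 : ENNReal) ^ m = ENNReal.ofReal ((2 : ℝ) ^ m) := by
            rw [ENNReal.ofReal_pow (by norm_num)]
            norm_num
          rw [h3, ← ENNReal.ofReal_mul (by positivity), ← ENNReal.ofReal_one]
          apply ENNReal.ofReal_le_ofReal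
          calc (1 : ℝ) = (2 : ℝ) ^ m * (1 / 2 : ℝ) ^ m := by
                rw [← mul_pow]; norm_num
            _ ≤ _ := mul_le_mul_of_nonneg_left hPsi (by positivity)
        rw [star_SS_add]
        rw [enorm_mul, mul_pow, pow_mul (2 : ENNReal) m (2 * s), mul_left_comm, ← mul_pow]
        calc ‖SS e S a' y‖ₑ ^ (2 * s) = ‖SS e S a' y‖ₑ ^ (2 * s) * 1 ^ (2 * s) := by simp
          _ ≤ ‖SS e S a' y‖ₑ ^ (2 * s) *
              ((2 : ENNReal) ^ m * ‖(Psi (fun _ => L) y : ℂ)‖ₑ) ^ (2 * s) := by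
            gcongr
    _ ≤ ∫⁻ y, (2 : ENNReal) ^ (m * (2 * s)) *
          ‖SS e S a' y * (Psi (fun _ => L) y : ℂ)‖ₑ ^ (2 * s) := setLIntegral_le_lintegral _ _
    _ = (2 : ENNReal) ^ (m * (2 * s)) * QQ s e (fun _ => L) S a' := by
        unfold QQ
        rw [lintegral_const_mul' _ _ (by
          exact ENNReal.pow_ne_top (by norm_num))]

/-- DL-19b with its two inputs as hypotheses -/
theorem star_of (m k : ℕ)
    (habs : ∀ (b : Fin m → ℝ), (∀ i, 0 < b i) → ∀ (e : Fin m → ℕ) (S : Finset ℕ) (a : ℕ → ℂ),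
      QQ (tri m) e b S a ≤ QQ (tri m) e b S (fun j => (‖a j‖ : ℂ)))
    (ε : ℝ)
    (hreal : ∃ K : ℝ, 0 < K ∧
    ∀ N : ℕ, 1 ≤ N → ∀ a : ℕ → ℝ, (∀ j, 0 ≤ a j) →
      QQ (tri m) (ex k 0 m) (fun _ => (N : ℝ) ^ k) ((range (N + 1)).filter (fun j => N < 2 * j))
        (fun j => (a j : ℂ)) ≤ ENNReal.ofReal (K * (N : ℝ) ^ (ε - k * m) *
          (∑ j ∈ (range (N + 1)).filter (fun j => N < 2 * j), a j ^ 2) ^ tri m)) :
    ∃ K : ℝ, 0 < K ∧
    ∀ N : ℕ, 1 ≤ N → ∀ a : ℕ → ℂ,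
      ∫⁻ x in Set.Icc (0 : Fin m → ℝ) (fun _ => ((N : ℝ) ^ k)⁻¹),
        ‖SS (fun i : Fin m => k + i + 1) ((range (N + 1)).filter (fun j => N < 2 * j)) a x‖ₑ ^
          (2 * tri m) ≤ ENNReal.ofReal (K * (N : ℝ) ^ (ε - k * m) *
          (∑ j ∈ (range (N + 1)).filter (fun j => N < 2 * j), ‖a j‖ ^ 2) ^ tri m) := by
  obtain ⟨K, hK, hreal⟩ := hreal
  refine ⟨2 ^ (m * (2 * tri m)) * K, by positivity, ?_⟩
  intro N hN a
  have hN0 : (0 : ℝ) < (N : ℝ) ^ k := by
    have : (0 : ℝ) < N := by exact_mod_cast hN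
    positivity
  have hex : ex k 0 m = fun i : Fin m => k + (i : ℕ) + 1 := by
    funext i
    simp [ex]
  obtain ⟨a', ha', hle⟩ := star_box_le (tri m) (fun i : Fin m => k + (i : ℕ) + 1)
    ((range (N + 1)).filter (fun j => N < 2 * j)) a hN0
  refine hle.trans ?_
  have h1 := habs (fun _ => (N : ℝ) ^ k) (fun _ => hN0) (fun i : Fin m => k + (i : ℕ) + 1)
    ((range (N + 1)).filter (fun j => N < 2 * j)) a'
  have h2 := hreal N hN (fun j => ‖a j‖) (fun j => norm_nonneg _)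
  rw [hex] at h2
  have h3 : (fun j => ((‖a' j‖ : ℝ) : ℂ)) = fun j => ((‖a j‖ : ℝ) : ℂ) := by
    funext j
    rw [ha' j]
  rw [h3] at h1
  calc (2 : ENNReal) ^ (m * (2 * tri m)) * QQ (tri m) (fun i : Fin m => k + (i : ℕ) + 1)
        (fun _ => (N : ℝ) ^ k) ((range (N + 1)).filter (fun j => N < 2 * j)) a'
      ≤ (2 : ENNReal) ^ (m * (2 * tri m)) * ENNReal.ofReal (K * (N : ℝ) ^ (ε - k * m) *
          (∑ j ∈ (range (N + 1)).filter (fun j => N < 2 * j), ‖a j‖ ^ 2) ^ tri m) := by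
        gcongr
        exact h1.trans h2
    _ = _ := by
        have h4 : (2 : ENNReal) ^ (m * (2 * tri m)) =
            ENNReal.ofReal ((2 : ℝ) ^ (m * (2 * tri m))) := by
          rw [ENNReal.ofReal_pow (by norm_num)]
          norm_num
        rw [h4, ← ENNReal.ofReal_mul (by positivity)]
        congr 1
        ring

end Pool.Agent.DL
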